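import Pool.Agent.K1H48.SC.Belev
import Pool.Agent.K1H48.SC.Main

/-! There is a symmetric conference matrix of order `50` that is not Seidel equivalent to any
matrix `𝓑(N)` with all row and column sums of `N` equal.

Idea.  As `49 = a ^ 2 + b ^ 2` with `a` even only for `a = 0`, `b = ±7`, property (R) in order `50`
forces a `±1` eigenvector of eigenvalue `-7`; this survives Seidel equivalence.  The matrix below
has none: integer vectors of its `-7` eigenspace form a lattice of rank `25`, a `±1` vector of that
eigenspace is an all-odd vector of norm `50` in it, and a complete enumeration (4228 nodes, done by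
the kernel) shows that the coset of all-odd vectors has no vector of norm at most `50`. -/

namespace Pool.Agent.Results.MP_f12850_co.NoRegularForm50

open K1H48.SC Matrix

/-- the matrix -/
noncomputable def C50 : Matrix (Fin (25 + 25)) (Fin (25 + 25)) ℝ :=
  Matrix.of fun i j => ((cE i.val j.val : ℤ) : ℝ)

theorem C50_conf : IsSymConf C50 where
  diag i := by simp [C50, cE_diag]
  off i j h := by
    have h' : i.val ≠ j.val := fun h' => h (Fin.ext h')
    rcases cE_off _ _ h' with h1 | h1 <;> simp [C50, h1]
  symm := by
    ext i j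
    simp only [Matrix.transpose_apply, C50, Matrix.of_apply]
    rw [sym_all j.val j.isLt i.val i.isLt]
  orth := by
    ext i j
    rw [Matrix.mul_apply]
    simp only [Matrix.transpose_apply, C50, Matrix.of_apply, Matrix.smul_apply, Matrix.one_apply,
      smul_eq_mul]
    have h1 := orth_all i.val i.isLt j.val j.isLt
    rw [Finset.sum_range] at h1
    have h2 : ((∑ k : Fin 50, cE i.val k.val * cE j.val k.val : ℤ) : ℝ)
        = ((if i.val = j.val then 49 else 0 : ℤ) : ℝ) := by rw [h1]
    push_cast at h2
    have h3 : (∑ k : Fin (25 + 25), ((cE i.val k.val : ℤ) : ℝ) * ((cE j.val k.val : ℤ) : ℝ))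
        = if i.val = j.val then 49 else 0 := h2
    rw [h3]
    by_cases hij : i = j
    · subst hij; norm_num
    · have : i.val ≠ j.val := fun h' => hij (Fin.ext h')
      simp [this, hij]

theorem C50_no_eig : ¬ Eig C50 := by
  rintro ⟨u, hu, hE⟩
  refine no_pm1 (fun n => if h : n < 50 then u ⟨n, h⟩ else 1) (fun i hi => ?_) (fun i hi => ?_)
  · simpa [hi] using hu ⟨i, hi⟩
  · rw [Finset.sum_range]
    have h1 := hE ⟨i, hi⟩
    simp only [C50, Matrix.of_apply] at h1
    have h2 : ((∑ j : Fin (25 + 25), cE i j.val * u j : ℤ) : ℝ) = ((-7 * u ⟨i, hi⟩ : ℤ) : ℝ) := by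
      push_cast
      exact h1
    have h3 : (∑ j : Fin (25 + 25), cE i j.val * u j : ℤ) = -7 * u ⟨i, hi⟩ := by exact_mod_cast h2
    simp only [hi, dite_true]
    rw [← h3]
    apply Finset.sum_congr rfl
    intro j _
    simp

/-- There is a symmetric conference matrix `C` of order `50` such that no matrix Seidel equivalent
to `C` has property (R). -/
theorem result : ∃ C : Matrix (Fin (25 + 25)) (Fin (25 + 25)) ℝ, IsSymConf C ∧
    ∀ C' : Matrix (Fin (25 + 25)) (Fin (25 + 25)) ℝ, SEquiv C C' → ¬ PropR C' :=
  ⟨C50, C50_conf, fun _ hC' hR =>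
    C50_no_eig (hC'.eig (propR_eig (hC'.ent ⟨C50_conf.diag, C50_conf.off⟩) hR))⟩

end Pool.Agent.Results.MP_f12850_co.NoRegularForm50
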